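import Pool.Agent.Work.MP_6d379e_ag.Gs.Fin

/-!
The structure theorem for homogeneous vector bundles on abeloids: every homogeneous bundle is a
direct sum of tensor products of unipotent bundles and homogeneous line bundles, given the theorem
on direct images.
-/

namespace Pool.Agent.Results.MP_6d379e_ag.AllAbeloids

open Pool.Agent.Work.MP_6d379e_ag.Gs

universe u

/-- Let `K` be an algebraically closed field, `A` a divisible commutative group with a G-topology
and a sheaf of `K`-valued functions on `A` and on `A × A` such that projections, addition and
inclusions of fibres are morphisms (for instance an abeloid over a complete algebraically closed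
field).  Assume that spaces of global sections of vector bundles on `A` are finite-dimensional and
that the theorem on direct images holds for the first projection `A × A → A`.  If `E` is a vector
bundle on `A` of rank `n`, isomorphic to all its translates, then `E` is isomorphic to a direct sum
of bundles `U t ⊗ L t` with `U t` unipotent and `L t` a homogeneous line bundle: up to the
isomorphism given by the identity matrix, `E` has frames with block diagonal upper triangular
transition matrices, all diagonal entries of the block `t` being the transition function of `L t`. -/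
theorem result {K : Type*} [Field K] [IsAlgClosed K] {A : Type u} [AddCommGroup A]
    (hdiv : ∀ N : ℕ, 0 < N → ∀ x : A, ∃ y, N • y = x) {G : GSp K A} {G2 : GSp K (A × A)}
    (h : GGrp G G2) (hfin : FinSec G) (hdir : DirIm h) (n : ℕ) (E : VB G (Fin n))
    (hE : Homog h E) :
    ∃ (r : ℕ) (s : Fin n → Fin r) (E' : VB G (Fin n)) (l : Fin r → E'.I → A → K)
      (h0 : ∀ t i, ∀ x ∈ E'.U i, l t i x ≠ 0)
      (hc : ∀ t i j, G.reg (E'.U i ∩ E'.U j) fun x => (l t i x)⁻¹ * l t j x),
      HomV E' E (fun _ => 1) ∧
      (∀ t, Homog h (lineB E' (l t) (h0 t) (hc t))) ∧
      ∀ i j, ∀ x ∈ E'.U i ∩ E'.U j, ∀ a b : Fin n,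
        (s a ≠ s b ∨ b < a → ((E'.e i x)⁻¹ * E'.e j x) a b = 0) ∧
        ((E'.e i x)⁻¹ * E'.e j x) a a = (l (s a) i x)⁻¹ * l (s a) j x :=
  sum_of_homog hdiv h hfin hdir hE

end Pool.Agent.Results.MP_6d379e_ag.AllAbeloids
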