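import Pool.Agent.Work.MP_6d379e_ag.Ab.PMain

/-!
Homogeneous analytic vector bundles on totally degenerate abeloids over the field of p-adic
complex numbers are pro-finite-etale.
-/

namespace Pool.Agent.Results.MP_6d379e_ag.TotallyDegenerate

open Pool.Agent.Work.MP_6d379e_ag.Ab

/-- Let `m 0, ..., m (g - 1)` be a basis of a lattice of full rank in the torus `T` of dimension
`g` over `ℂ_[p]`, `A` the quotient of `T` by the lattice, and `f` an analytic vector bundle on `A`
whose pull back to `T` is a direct summand of a trivial bundle of rank `n`.  If `f` is homogeneous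
then it is pro-finite-etale: its pull back to the limit of the tower of all multiplication maps of
`A` is trivial. -/
theorem result (p : ℕ) [Fact p.Prime] (g n : ℕ) (m : Fin g → Tor (Fin g) ℂ_[p]) (hm : IsLat m)
    (f : (Fin g → ℤ) → Tor (Fin g) ℂ_[p] → Matrix (Fin n) (Fin n) ℂ_[p]) (hf : IsBun m f)
    (hh : Homog m f) : PFE m f :=
  pfe_of_homog hm (cp_like p) hf hh

end Pool.Agent.Results.MP_6d379e_ag.TotallyDegenerate
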